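import Mathlib

set_option autoImplicit false

namespace Pool.Agent.Results.MP_c9219e_nt.Odd

/-- `l` is an `m`-product sequence: non-decreasing, its product is an `m`-th power, and every
integer occurs at most `m - 1` times. -/
def IsProductSeq (m : ℕ) (l : List ℕ) : Prop :=
  l.Pairwise (· ≤ ·) ∧ (∃ R : ℕ, l.prod = R ^ m) ∧ ∀ x, l.count x ≤ m - 1

/-- the last terms of the `m`-product sequences with first term `n`; `g_m(n)` is its least element -/
def Ends (m n : ℕ) : Set ℕ :=
  {s | ∃ l : List ℕ, IsProductSeq m l ∧ l.head? = some n ∧ l.getLast? = some s}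

lemma mk (m n x y z i j k t R : ℕ) (h1 : n < y) (h2 : y < z) (h3 : z < x) (hi : i + 1 ≤ m - 1)
    (hj : j ≤ m - 1) (hk : k ≤ m - 1) (ht : t + 1 ≤ m - 1)
    (h : n ^ (i + 1) * y ^ j * z ^ k * x ^ (t + 1) = R ^ m) : x ∈ Ends m n := by
  refine ⟨List.replicate (i + 1) n ++ List.replicate j y ++ List.replicate k z ++
    List.replicate (t + 1) x, ⟨?_, ⟨R, by simpa [mul_assoc] using h⟩, fun u => ?_⟩, by simp [List.replicate_succ],
    by rw [List.replicate_succ' (n := t), ← List.append_assoc, List.getLast?_concat]⟩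
  · simp only [List.pairwise_append, List.pairwise_replicate, List.mem_append, List.mem_replicate]
    refine ⟨⟨⟨by simp, by simp, ?_⟩, by simp, ?_⟩, by simp, ?_⟩ <;> intros <;> omega
  · simp only [List.count_append, List.count_replicate, beq_iff_eq]
    split_ifs <;> omega

lemma comp (m a b : ℕ) (hm : 3 ≤ m) (ha : 2 ≤ a) (hab : a ≤ b) :
    (a + 1) * (b + 1) ∈ Ends m (a * b) := by
  obtain ⟨m, rfl⟩ : ∃ k, m = k + 2 := ⟨m - 2, by omega⟩
  rcases hab.eq_or_lt with rfl | h
  · exact mk _ _ _ (a * (a + 1)) (a * (a + 1) + 1) 0 m 0 0 (a * (a + 1)) (by nlinarith) (by omega)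
      (by nlinarith) (by omega) (by omega) (by omega) (by omega) (by ring)
  · exact mk _ _ _ (a * (b + 1)) (b * (a + 1)) 0 (m + 1) (m + 1) 0 (a * (b + 1) * (b * (a + 1)))
      (by nlinarith) (by nlinarith) (by nlinarith) (by omega) (by omega) (by omega) (by omega)
      (by rw [mul_pow (a * (b + 1))]; generalize hu : a * (b + 1) = u; generalize hv : b * (a + 1) = v
          have : a * b * ((a + 1) * (b + 1)) = u * v := by rw [← hu, ← hv]; ring
          linear_combination u ^ (m + 1) * v ^ (m + 1) * this)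

set_option synthInstance.maxSize 100000 in
lemma four : 8 ∉ Ends 3 4 := by
  rintro ⟨l, ⟨hs, ⟨R, hR⟩, hc⟩, h4, h8⟩
  have m4 := List.mem_of_mem_head? h4
  have hsub : l.toFinset ⊆ ({4, 5, 6, 7, 8} : Finset ℕ) := fun x hx => by
    rw [List.mem_toFinset] at hx
    have a1 : 4 ≤ x := by
      obtain ⟨t, rfl⟩ := List.head?_eq_some_iff.mp h4
      rcases List.mem_cons.mp hx with h | h
      · omega
      · exact List.rel_of_pairwise_cons hs h
    have a2 : x ≤ 8 := by
      obtain ⟨t, rfl⟩ := List.getLast?_eq_some_iff.mp h8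
      rcases List.mem_append.mp hx with h | h
      · exact (List.pairwise_append.mp hs).2.2 x h 8 (by simp)
      · simp at h; omega
    simp; omega
  rw [Finset.prod_list_count_of_subset l _ hsub] at hR
  have h0 := List.count_pos_iff.mpr m4
  have key : ∀ a < 3, a ≠ 0 → ∀ b < 3, ∀ c < 3, ∀ d < 3, ∀ e < 3,
      4 ^ a * (5 ^ b * (6 ^ c * (7 ^ d * 8 ^ e))) < 357 ^ 3 ∧
      ∀ R < 357, 4 ^ a * (5 ^ b * (6 ^ c * (7 ^ d * 8 ^ e))) ≠ R ^ 3 := by decide +kernel
  have k := key (l.count 4) (by have := hc 4; omega) (by omega) (l.count 5) (by have := hc 5; omega)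
    (l.count 6) (by have := hc 6; omega) (l.count 7) (by have := hc 7; omega)
    (l.count 8) (by have := hc 8; omega)
  simp only [Finset.mem_insert, Finset.mem_singleton, Nat.reduceEqDiff, or_self, not_false_eq_true,
    Finset.prod_insert, Finset.prod_singleton] at hR
  exact k.2 R (lt_of_pow_lt_pow_left₀ 3 (by norm_num) (hR ▸ k.1)) hR

theorem result (m n : ℕ) (hm : 3 ≤ m) (ho : Odd m) (hg : IsLeast (Ends m n) (2 * n)) :
    n = 0 ∨ n.Prime ∨ (n = 4 ∧ 5 ≤ m) ∨ (m = 3 ∧ n = 6) := by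
  by_contra hn
  simp only [not_or, not_and] at hn
  obtain ⟨h0, hp, h4, h6⟩ := hn
  obtain ⟨k, rfl⟩ := ho
  by_cases h1 : n = 1
  · subst h1
    have : 1 ∈ Ends (2 * k + 1) 1 := ⟨[1], ⟨by simp, ⟨1, by simp⟩, fun x => by
      have := List.count_le_length (a := x) (l := [1]); simp only [List.length_singleton] at this
      omega⟩, rfl, rfl⟩
    have := hg.2 this
    omega
  obtain ⟨a, b, ha, hab, rfl⟩ : ∃ a b, 2 ≤ a ∧ a ≤ b ∧ n = a * b := by
    obtain ⟨a, b, ha, hb, rfl⟩ := (Nat.not_prime_iff_exists_mul_eq (by omega)).mp hp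
    have : 2 ≤ a := by
      rcases a with _ | _ | a <;> simp at *
    have : 2 ≤ b := by
      rcases b with _ | _ | b <;> simp at *
    rcases le_total a b with h | h
    · exact ⟨a, b, by omega, h, rfl⟩
    · exact ⟨b, a, by omega, h, mul_comm _ _⟩
  have h := hg.2 (comp _ a b hm ha hab)
  obtain rfl : a = 2 := by by_contra h'; nlinarith [show 3 ≤ a by omega]
  obtain rfl | rfl : b = 2 ∨ b = 3 := by omega
  · obtain rfl : k = 1 := by omega
    exact four hg.1
  · obtain ⟨k, rfl⟩ : ∃ j, k = j + 2 := ⟨k - 2, by omega⟩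
    have := hg.2 (mk (2 * (k + 2) + 1) 6 9 7 8 2 0 (2 * k + 4) k 24 (by omega) (by omega) (by omega)
      (by omega) (by omega) (by omega) (by omega) (by
        rw [show (24 : ℕ) = 8 * 3 by rfl, mul_pow, show (9 : ℕ) = 3 ^ 2 by rfl, ← pow_mul]; ring))
    omega

end Pool.Agent.Results.MP_c9219e_nt.Odd
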